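import Pool.Agent.Helper85.LN.Goals

/-!
# Project LN (MP_d0c558_al), packet CERTG: construction of the biset in an abstract group
-/

namespace Pool.Agent.Helper40.LN

open Pool.Agent.Helper85.LN

section Ev

variable {Q H : Type*} [Group H] (γ : Q → H)

theorem ev_nil : ev γ [] = 1 := rfl

theorem ev_cons (s : S Q) (w : List (S Q)) :
    ev γ (s :: w) = cond s.2 (γ s.1) (γ s.1)⁻¹ * ev γ w := by
  simp [ev]

theorem ev_append (u v : List (S Q)) : ev γ (u ++ v) = ev γ u * ev γ v := by
  simp [ev]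

theorem ev_iw (w : List (S Q)) : ev γ (iw w) = (ev γ w)⁻¹ := by
  induction w with
  | nil => simp [iw, ev]
  | cons s w ih =>
    obtain ⟨q, b⟩ := s
    rw [iw_cons, ev_append, ih, ev_cons, ev_cons, ev_nil, mul_one, mul_inv_rev]
    cases b <;> simp

theorem ev_surj (h : Subgroup.closure (Set.range γ) = ⊤) (g : H) : ∃ w, ev γ w = g := by
  have hg : g ∈ Subgroup.closure (Set.range γ) := by rw [h]; trivial
  induction hg using Subgroup.closure_induction with
  | mem x hx =>
    obtain ⟨q, rfl⟩ := hx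
    exact ⟨[(q, true)], by simp [ev]⟩
  | one => exact ⟨[], rfl⟩
  | mul x y _ _ hx hy =>
    obtain ⟨u, rfl⟩ := hx
    obtain ⟨v, rfl⟩ := hy
    exact ⟨u ++ v, ev_append γ u v⟩
  | inv x _ hx =>
    obtain ⟨u, rfl⟩ := hx
    exact ⟨iw u, ev_iw γ u⟩

end Ev

variable {H : Type} [Group H] {d : ℕ} (act : H →* Equiv.Perm (Fin d)) (sec : H → Fin d → H)
  (hc : ∀ g h a, sec (g * h) a = sec g (act h a) * sec h a)

include hc

theorem sec_one (a : Fin d) : sec 1 a = 1 := by
  have h := hc 1 1 a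
  rw [one_mul, map_one, Equiv.Perm.one_apply] at h
  exact left_eq_mul.1 h

theorem sec_inv (g : H) (a : Fin d) : sec g⁻¹ (act g a) = (sec g a)⁻¹ := by
  have h := hc g⁻¹ g a
  rw [inv_mul_cancel, sec_one act sec hc] at h
  exact eq_inv_of_mul_eq_one_left h.symm

/-- the group of the sections at `x` of the stabiliser of `x` -/
def LL (x : Fin d) : Subgroup H where
  carrier := {g | ∃ s, act s x = x ∧ sec s x = g}
  mul_mem' := by
    rintro _ _ ⟨s, h1, rfl⟩ ⟨s', h2, rfl⟩
    refine ⟨s * s', ?_, ?_⟩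
    · rw [map_mul, Equiv.Perm.mul_apply, h2, h1]
    · rw [hc, h2]
  one_mem' := ⟨1, by simp, sec_one act sec hc x⟩
  inv_mem' := by
    rintro _ ⟨s, h1, rfl⟩
    refine ⟨s⁻¹, ?_, ?_⟩
    · rw [map_inv, Equiv.Perm.inv_eq_iff_eq, h1]
    · have := sec_inv act sec hc s x
      rwa [h1] at this

theorem mem_LL {x : Fin d} {g : H} : g ∈ LL act sec hc x ↔ ∃ s, act s x = x ∧ sec s x = g := Iff.rfl

theorem sec_inj (hi : ∀ g a, act g a = a → sec g a = 1 → g = 1) {x : Fin d} {s s' : H}
    (h : act s x = x) (h' : act s' x = x) (e : sec s x = sec s' x) : s = s' := by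
  have h1 : act (s⁻¹ * s') x = x := by
    rw [map_mul, Equiv.Perm.mul_apply, h', map_inv, Equiv.Perm.inv_eq_iff_eq, h]
  have h2 : sec (s⁻¹ * s') x = 1 := by
    rw [hc, h']
    have h3 := sec_inv act sec hc s x
    rw [h] at h3
    rw [h3, e, inv_mul_cancel]
  have h3 := hi _ _ h1 h2
  rw [inv_mul_eq_one] at h3
  exact h3

/-- the element of the stabiliser which corrects the representative -/
theorem rho_exists (x : Fin d) (g : H) : ∃ s, act s x = x ∧
    sec s x = ((g : H ⧸ LL act sec hc x).out)⁻¹ * g := by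
  rw [← mem_LL act sec hc, ← QuotientGroup.eq, QuotientGroup.out_eq']

/-- a chosen correction -/
noncomputable def rho (x : Fin d) (g : H) : H := Classical.choose (rho_exists act sec hc x g)

theorem rho_act (x : Fin d) (g : H) : act (rho act sec hc x g) x = x :=
  (Classical.choose_spec (rho_exists act sec hc x g)).1

theorem rho_sec (x : Fin d) (g : H) : sec (rho act sec hc x g) x =
    ((g : H ⧸ LL act sec hc x).out)⁻¹ * g :=
  (Classical.choose_spec (rho_exists act sec hc x g)).2

/-- the finite set -/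
abbrev ZZ : Type := Σ x : Fin d, H ⧸ LL act sec hc x

/-- the cocycle -/
noncomputable def sig (p : H) (z : ZZ act sec hc) : H := rho act sec hc z.1 (p * z.2.out)

theorem mk_mul_out (x : Fin d) (p : H) (C : H ⧸ LL act sec hc x) :
    ((p * C.out : H) : H ⧸ LL act sec hc x) = p • C := by
  have h : p • ((C.out : H) : H ⧸ LL act sec hc x) = ((p * C.out : H) : H ⧸ LL act sec hc x) := rfl
  rw [← h, QuotientGroup.out_eq']

theorem sig_sec (p : H) (x : Fin d) (C : H ⧸ LL act sec hc x) :
    sec (sig act sec hc p ⟨x, C⟩) x = ((p • C).out)⁻¹ * (p * C.out) := by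
  have h := rho_sec act sec hc x (p * C.out)
  rw [mk_mul_out] at h
  exact h

theorem sig_act (p : H) (x : Fin d) (C : H ⧸ LL act sec hc x) :
    act (sig act sec hc p ⟨x, C⟩) x = x := rho_act act sec hc _ _

theorem sig_mul (hi : ∀ g a, act g a = a → sec g a = 1 → g = 1) (p p' : H)
    (z : ZZ act sec hc) : sig act sec hc (p * p') z =
      sig act sec hc p (p' • z) * sig act sec hc p' z := by
  obtain ⟨x, C⟩ := z
  have e : p' • (⟨x, C⟩ : ZZ act sec hc) = ⟨x, p' • C⟩ := rfl
  rw [e]
  refine sec_inj act sec hc hi (sig_act act sec hc _ x C) ?_ ?_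
  · rw [map_mul, Equiv.Perm.mul_apply, sig_act, sig_act]
  · rw [hc, sig_act act sec hc, sig_sec act sec hc, sig_sec act sec hc, sig_sec act sec hc,
      mul_smul]
    group

theorem sig_one (hi : ∀ g a, act g a = a → sec g a = 1 → g = 1) (z : ZZ act sec hc) :
    sig act sec hc 1 z = 1 := by
  have h := sig_mul act sec hc hi 1 1 z
  rw [one_mul, one_smul] at h
  exact left_eq_mul.1 h

theorem sig_inv (hi : ∀ g a, act g a = a → sec g a = 1 → g = 1) (p : H) (z : ZZ act sec hc) :
    (sig act sec hc p (p⁻¹ • z))⁻¹ = sig act sec hc p⁻¹ z := by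
  have h := sig_mul act sec hc hi p p⁻¹ z
  rw [mul_inv_cancel, sig_one act sec hc hi] at h
  exact inv_eq_of_mul_eq_one_right h.symm

/-- the point with the coset of `sec c x` -/
def pt (c : H) (x : Fin d) : ZZ act sec hc := ⟨x, (sec c x : H ⧸ LL act sec hc x)⟩

theorem finite_quot (hf : ∀ a, ∃ E : Finset H, ∀ g, ∃ e ∈ E, ∃ h, act h a = a ∧ sec h a = e⁻¹ * g)
    (x : Fin d) : Finite (H ⧸ LL act sec hc x) := by
  obtain ⟨E, hE⟩ := hf x
  refine Finite.of_surjective (fun e : E => ((e : H) : H ⧸ LL act sec hc x)) ?_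
  intro C
  induction C using QuotientGroup.induction_on with
  | H g =>
    obtain ⟨e, he, h, h1, h2⟩ := hE g
    refine ⟨⟨e, he⟩, ?_⟩
    exact QuotientGroup.eq.2 ⟨h, h1, h2⟩

/-- the main relation -/
theorem rel_pt (hi : ∀ g a, act g a = a → sec g a = 1 → g = 1) {x a b : Fin d} {g ca cb : H}
    (hab : act g a = b) (ha : act ca x = a) (hb : act cb x = b) :
    sec g a • pt act sec hc ca x = pt act sec hc cb x ∧
    sig act sec hc (sec g a) (pt act sec hc ca x) * (rho act sec hc x (sec ca x) * ca⁻¹) =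
      rho act sec hc x (sec cb x) * cb⁻¹ * g := by
  have hs : act (cb⁻¹ * (g * ca)) x = x := by
    rw [map_mul, map_mul, Equiv.Perm.mul_apply, Equiv.Perm.mul_apply, ha, hab, map_inv,
      Equiv.Perm.inv_eq_iff_eq, hb]
  have hss : sec (cb⁻¹ * (g * ca)) x = (sec cb x)⁻¹ * (sec g a * sec ca x) := by
    rw [hc, hc, ha, map_mul, Equiv.Perm.mul_apply, ha, hab, ← hb, sec_inv act sec hc]
  have h1 : (sec g a) • ((sec ca x : H) : H ⧸ LL act sec hc x) =
      ((sec cb x : H) : H ⧸ LL act sec hc x) := by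
    have e : (sec g a) • ((sec ca x : H) : H ⧸ LL act sec hc x) =
      ((sec g a * sec ca x : H) : H ⧸ LL act sec hc x) := rfl
    rw [e, eq_comm, QuotientGroup.eq]
    exact ⟨_, hs, hss⟩
  refine ⟨?_, ?_⟩
  · change (⟨x, (sec g a) • ((sec ca x : H) : H ⧸ LL act sec hc x)⟩ : ZZ act sec hc) = _
    rw [h1]
    rfl
  · have key : sig act sec hc (sec g a) (pt act sec hc ca x) * rho act sec hc x (sec ca x) =
        rho act sec hc x (sec cb x) * (cb⁻¹ * (g * ca)) := by
      refine sec_inj act sec hc hi ?_ ?_ ?_ (x := x)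
      · rw [map_mul, Equiv.Perm.mul_apply, rho_act]
        exact sig_act act sec hc _ x _
      · rw [map_mul, Equiv.Perm.mul_apply, hs, rho_act]
      · rw [hc, hc, rho_act act sec hc, hs, hss, rho_sec act sec hc, rho_sec act sec hc]
        have e := sig_sec act sec hc (sec g a) x ((sec ca x : H) : H ⧸ LL act sec hc x)
        rw [h1] at e
        change sec (sig act sec hc (sec g a) ⟨x, _⟩) x * _ = _
        rw [e]
        group
    calc sig act sec hc (sec g a) (pt act sec hc ca x) * (rho act sec hc x (sec ca x) * ca⁻¹)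
        = (sig act sec hc (sec g a) (pt act sec hc ca x) * rho act sec hc x (sec ca x)) * ca⁻¹ := by
          group
      _ = _ := by rw [key]; group

omit hc

/-- PACKET CERTG. -/
theorem certg : S_CERTG := by
  intro H _ m d act sec γ tr hc hi hf hgen ht
  haveI : ∀ x, Finite (H ⧸ LL act sec hc x) := finite_quot act sec hc hf
  haveI : Finite (ZZ act sec hc) := inferInstance
  obtain ⟨k, ⟨e⟩⟩ := Finite.exists_equiv_fin (ZZ act sec hc)
  choose wd hwd using ev_surj γ hgen
  let B : WA (Fin m) (Fin k) :=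
    ⟨fun q => (e.symm.trans (MulAction.toPerm (γ q))).trans e,
      fun q z => wd (sig act sec hc (γ q) (e.symm z))⟩
  have hBt : ∀ q z, B.lt (q, true) (e z) = e (γ q • z) := by
    intro q z
    simp [B, WA.lt]
  have hBf : ∀ q z, B.lt (q, false) (e z) = e ((γ q)⁻¹ • z) := by
    intro q z
    simp [B, WA.lt]
  have hSt : ∀ q z, ev γ (B.sc (q, true) (e z)) = sig act sec hc (γ q) z := by
    intro q z
    simp [B, WA.sc, hwd]
  have hSf : ∀ q z, ev γ (B.sc (q, false) (e z)) = sig act sec hc (γ q)⁻¹ z := by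
    intro q z
    have h1 : B.sc (q, false) (e z) = iw (wd (sig act sec hc (γ q) ((γ q)⁻¹ • z))) := by
      simp [B, WA.sc]
    rw [h1, ev_iw, hwd, sig_inv act sec hc hi]
  have main : ∀ w z, B.ltw w (e z) = e (ev γ w • z) ∧
      ev γ (B.scw w (e z)) = sig act sec hc (ev γ w) z := by
    intro w
    induction w with
    | nil =>
      intro z
      refine ⟨by simp [WA.ltw, ev_nil], ?_⟩
      rw [ev_nil, sig_one act sec hc hi]
      rfl
    | cons s w ih =>
      intro z
      obtain ⟨q, b⟩ := s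
      rw [ev_cons, WA.ltw, WA.scw, ev_append, (ih z).1, (ih z).2, mul_smul,
        sig_mul act sec hc hi]
      cases b
      · exact ⟨hBf q _, by rw [hSf]; rfl⟩
      · exact ⟨hBt q _, by rw [hSt]; rfl⟩
  -- representatives of the orbits
  let r : Setoid (Fin d) :=
    { r := fun a b => ∃ g, act g a = b
      iseqv := ⟨fun a => ⟨1, by simp⟩,
        fun {a b} ⟨g, h⟩ => ⟨g⁻¹, by rw [map_inv, Equiv.Perm.inv_eq_iff_eq, h]⟩,
        fun {a b c} ⟨g, h⟩ ⟨g', h'⟩ => ⟨g' * g, by rw [map_mul, Equiv.Perm.mul_apply, h, h']⟩⟩ }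
  let rep : Fin d → Fin d := fun y => (Quotient.mk r y).out
  have hrep : ∀ y, ∃ g, act g (rep y) = y := fun y => Quotient.mk_out (s := r) y
  have hrep' : ∀ a b, (∃ g, act g a = b) → rep b = rep a := by
    intro a b h
    have : Quotient.mk r a = Quotient.mk r b := Quotient.sound h
    simp only [rep, this]
  choose c hcc using hrep
  refine ⟨k, B, fun y => e (pt act sec hc (c y) (rep y)),
    fun y => wd (rho act sec hc (rep y) (sec (c y) (rep y)) * (c y)⁻¹), ?_, ?_⟩
  · intro w hw z
    obtain ⟨z, rfl⟩ := e.surjective z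
    obtain ⟨h1, h2⟩ := main w z
    rw [hw] at h1 h2
    rw [one_smul] at h1
    exact ⟨h1, h2.trans (sig_one act sec hc hi z)⟩
  · intro q a
    have hb := hcc (act (γ q) a)
    have hr : rep (act (γ q) a) = rep a := hrep' a _ ⟨γ q, rfl⟩
    rw [hr] at hb
    obtain ⟨h1, h2⟩ := rel_pt act sec hc hi (g := γ q) rfl (hcc a) hb
    simp only [hBt, hSt, hwd, hr, ht]
    exact ⟨by rw [h1], h2⟩

end Pool.Agent.Helper40.LN
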