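import Pool.Agent.Helper64.LN.GoalsC

set_option autoImplicit false

/-! LN-EX5: extension of isotopies. -/

open Topology Filter Set Metric UpperHalfPlane
open scoped MatrixGroups

namespace Pool.Agent.Helper40.LN

open Pool.Agent.Helper64.LN

theorem goalEX5.{v} (hEX1 : GoalEX1.{v}) : GoalEX5.{v} := by
  intro X _ _ _ E hE H hH1 hH0
  classical
  obtain ⟨Gf, hGf⟩ : ∃ Gf : unitInterval × X → X,
      Gf = fun q => if h : q.2 ∈ E then q.2 else ((H (q.1, ⟨q.2, h⟩)).2 : X) := ⟨_, rfl⟩
  have hG1 : ∀ t (x : Sb E), Gf (t, x) = (H (t, x)).2 := by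
    intro t x
    rw [hGf]
    dsimp only
    rw [dif_neg x.2]
  have hG2 : ∀ t, ∀ x ∈ E, Gf (t, x) = x := by
    intro t x hx
    rw [hGf]
    dsimp only
    rw [dif_pos hx]
  have hval : IsOpenEmbedding (Subtype.val : Sb E → X) :=
    IsOpen.isOpenEmbedding_subtypeVal hE.closed.isOpen_compl
  have hcont : Continuous Gf := by
    rw [continuous_iff_continuousAt]
    rintro ⟨t, x⟩
    by_cases hx : x ∈ E
    · intro U0 hU0
      rw [hG2 t x hx] at hU0
      obtain ⟨U, hUo, hxU, hUU, hUc, hUE⟩ := hEX1 X E hE.closed hE.td x U0 hU0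
      have hfr : frontier U = closure U \ U := hUo.frontier_eq
      obtain ⟨Fr, hFr⟩ : ∃ Fr : Set (Sb E), Fr = {y : Sb E | (y : X) ∈ frontier U} := ⟨_, rfl⟩
      have hFrc : IsCompact Fr := by
        rw [hval.toIsEmbedding.isCompact_iff]
        have h1 : (Subtype.val : Sb E → X) '' Fr = frontier U := by
          ext y
          constructor
          · rintro ⟨z, hz, rfl⟩
            rw [hFr] at hz
            exact hz
          · intro hy
            refine ⟨⟨y, fun hyE => (Set.disjoint_left.1 hUE) hy hyE⟩, ?_, rfl⟩
            rw [hFr]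
            exact hy
        rw [h1]
        exact hUc.of_isClosed_subset isClosed_frontier frontier_subset_closure
      obtain ⟨Q, hQ⟩ : ∃ Q : Set X, Q = (fun q : unitInterval × Sb E => ((H.symm q).2 : X)) ''
          (univ ×ˢ Fr) := ⟨_, rfl⟩
      have hQc : IsCompact Q := by
        rw [hQ]
        exact (isCompact_univ.prod hFrc).image
          (continuous_subtype_val.comp (continuous_snd.comp H.symm.continuous))
      have hxQ : x ∉ Q := by
        rw [hQ]
        rintro ⟨q, -, hq⟩
        have hq' : ((H.symm q).2 : X) = x := hq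
        exact (H.symm q).2.2 (by rw [hq']; exact hx)
      have hUQ : U \ Q ∈ 𝓝 x := (hUo.sdiff hQc.isClosed).mem_nhds ⟨hxU, hxQ⟩
      obtain ⟨V, hV, hVU, hVc⟩ := hE.loc x _ hUQ
      obtain ⟨W, hW⟩ : ∃ W : Set (Sb E), W = {y : Sb E | (y : X) ∈ V} := ⟨_, rfl⟩
      have hWc : IsPreconnected W := by
        rw [← hval.isInducing.isPreconnected_image]
        have h1 : (Subtype.val : Sb E → X) '' W = V \ E := by
          ext y
          constructor
          · rintro ⟨z, hz, rfl⟩
            rw [hW] at hz
            exact ⟨hz, z.2⟩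
          · rintro ⟨hy, hyE⟩
            refine ⟨⟨y, hyE⟩, ?_, rfl⟩
            rw [hW]
            exact hy
        rw [h1]
        exact hVc.isPreconnected
      obtain ⟨A, hA⟩ : ∃ A : Set X, A = (fun q : unitInterval × Sb E => ((H q).2 : X)) ''
          (univ ×ˢ W) := ⟨_, rfl⟩
      have hAc : IsPreconnected A := by
        rw [hA]
        exact (isPreconnected_univ.prod hWc).image _
          (continuous_subtype_val.comp (continuous_snd.comp H.continuous)).continuousOn
      have hAU : A ⊆ U := by
        have hVo : IsOpen (closure U)ᶜ := (isClosed_closure (s := U)).isOpen_compl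
        refine IsPreconnected.subset_left_of_subset_union hUo hVo ?_ ?_ ?_ hAc
        · rw [Set.disjoint_left]
          intro y hy hy'
          exact hy' (subset_closure hy)
        · rw [hA]
          rintro _ ⟨q, ⟨-, hq⟩, rfl⟩
          by_contra hcon
          rw [mem_union, not_or, mem_compl_iff, not_not] at hcon
          have h2 : ((H q).2 : X) ∈ frontier U := by
            rw [hfr]
            exact ⟨hcon.2, hcon.1⟩
          have h3 : (q.2 : X) ∈ Q := by
            rw [hQ]
            refine ⟨H q, ⟨mem_univ _, ?_⟩, ?_⟩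
            · rw [hFr]
              exact h2
            · dsimp only
              rw [H.symm_apply_apply]
          rw [hW] at hq
          exact (hVU hq).2 h3
        · obtain ⟨y, hy, hyE⟩ := hVc.nonempty
          refine ⟨y, ?_, (hVU hy).1⟩
          rw [hA]
          refine ⟨(0, ⟨y, hyE⟩), ⟨mem_univ _, ?_⟩, ?_⟩
          · rw [hW]
            exact hy
          · dsimp only
            rw [hH0]
      rw [Filter.mem_map]
      refine Filter.mem_of_superset (prod_mem_nhds univ_mem hV) ?_
      rintro ⟨s, y⟩ ⟨-, hy⟩
      rw [mem_preimage]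
      apply hUU
      by_cases hyE : y ∈ E
      · rw [hG2 s y hyE]
        exact (hVU hy).1
      · have h1 := hG1 s ⟨y, hyE⟩
        change Gf (s, y) = _ at h1
        rw [h1]
        apply hAU
        rw [hA]
        refine ⟨(s, ⟨y, hyE⟩), ⟨mem_univ _, ?_⟩, rfl⟩
        rw [hW]
        exact hy
    · have he : IsOpenEmbedding (Prod.map id Subtype.val : unitInterval × Sb E → unitInterval × X) :=
        IsOpenEmbedding.id.prodMap hval
      have h1 := he.continuousAt_iff (g := Gf) (x := (t, (⟨x, hx⟩ : Sb E)))
      have h2 : (Prod.map id Subtype.val : unitInterval × Sb E → unitInterval × X)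
          (t, (⟨x, hx⟩ : Sb E)) = (t, x) := rfl
      rw [h2] at h1
      rw [← h1]
      have h3 : Gf ∘ (Prod.map id Subtype.val : unitInterval × Sb E → unitInterval × X) =
          fun q => ((H q).2 : X) := by
        funext q
        exact hG1 q.1 q.2
      rw [h3]
      exact (continuous_subtype_val.comp (continuous_snd.comp H.continuous)).continuousAt
  exact ⟨⟨Gf, hcont⟩, hG1, hG2⟩

end Pool.Agent.Helper40.LN
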